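import Pool.Agent.Helper32.AG.Goals

/-!
# PROJECT AG: sums over orbits
-/

set_option autoImplicit false

namespace Pool.Agent.Helper59.AG

open Pool.Agent.Helper32.AG

universe u

/-- isomorphic finite groups have the same class number -/
lemma k_congr {X Y : Type u} [Group X] [Group Y] [Finite X] [Finite Y] (e : X ≃* Y) :
    k X = k Y := by
  unfold k
  apply le_antisymm
  · exact Nat.card_le_card_of_surjective (ConjClasses.map e.symm.toMonoidHom)
      (ConjClasses.map_surjective e.symm.surjective)
  · exact Nat.card_le_card_of_surjective (ConjClasses.map e.toMonoidHom)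
      (ConjClasses.map_surjective e.surjective)

section

variable {G : Type u} [Group G] {V : Subgroup G} [V.Normal]

lemma mem_cent {v g : G} : g ∈ Subgroup.centralizer {v} ↔ v * g = g * v := by
  rw [Subgroup.mem_centralizer_iff]
  constructor
  · intro h
    exact h v rfl
  · rintro h m rfl
    exact h

lemma kst_conj {v v' : G} (h : IsConj v v') : Nonempty (Kst V v ≃* Kst V v') := by
  obtain ⟨g, hg⟩ := isConj_iff.1 h
  have key : (Kst V v).map (MulAut.conj (QuotientGroup.mk' V g)).toMonoidHom = Kst V v' := by
    ext x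
    constructor
    · rintro ⟨y, ⟨c, hc, rfl⟩, rfl⟩
      refine ⟨g * c * g⁻¹, ?_, ?_⟩
      · have hc' : v * c = c * v := mem_cent.1 hc
        have : g * c * g⁻¹ ∈ Subgroup.centralizer {v'} := by
          rw [mem_cent, ← hg]
          calc g * v * g⁻¹ * (g * c * g⁻¹) = g * (v * c) * g⁻¹ := by group
            _ = g * (c * v) * g⁻¹ := by rw [hc']
            _ = g * c * g⁻¹ * (g * v * g⁻¹) := by group
        exact this
      · simp [MulAut.conj_apply]
    · rintro ⟨c, hc, rfl⟩
      refine ⟨QuotientGroup.mk' V (g⁻¹ * c * g), ⟨g⁻¹ * c * g, ?_, rfl⟩, ?_⟩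
      · have hc' : v' * c = c * v' := mem_cent.1 hc
        rw [← hg] at hc'
        have : g⁻¹ * c * g ∈ Subgroup.centralizer {v} := by
          rw [mem_cent]
          calc v * (g⁻¹ * c * g) = g⁻¹ * (g * v * g⁻¹ * c) * g := by group
            _ = g⁻¹ * (c * (g * v * g⁻¹)) * g := by rw [hc']
            _ = g⁻¹ * c * g * v := by group
        exact this
      · simp [MulAut.conj_apply, mul_assoc]
  exact ⟨(MulEquiv.subgroupMap (MulAut.conj (QuotientGroup.mk' V g)) (Kst V v)).trans
    (MulEquiv.subgroupCongr key)⟩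

lemma card_class [Finite G] (v : V) :
    Nat.card {v' : V // IsConj (v : G) (v' : G)} = (Subgroup.centralizer {(v : G)}).index := by
  have hfin : Finite (ConjAct G) := Finite.of_equiv G ConjAct.toConjAct.toEquiv
  have e1 := Subgroup.card_mul_index (Subgroup.centralizer {(v : G)})
  have e2 := Subgroup.card_mul_index (MulAction.stabilizer (ConjAct G) (v : G))
  have e3 := Subgroup.nat_card_centralizer_nat_card_stabilizer (v : G)
  have e4 : Nat.card (ConjAct G) = Nat.card G := Nat.card_congr ConjAct.ofConjAct.toEquiv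
  have e5 : (Subgroup.centralizer {(v : G)}).index =
      (MulAction.stabilizer (ConjAct G) (v : G)).index := by
    rw [e4, ← e1, ← e3] at e2
    exact (Nat.eq_of_mul_eq_mul_left Nat.card_pos e2).symm
  rw [e5, MulAction.index_stabilizer, ← Nat.card_coe_set_eq]
  refine Nat.card_congr ?_
  refine ⟨fun x => ⟨(x.1 : G), ?_⟩, fun y => ⟨⟨y.1, ?_⟩, ?_⟩, ?_, ?_⟩
  · rw [ConjAct.mem_orbit_conjAct]
    exact x.2.symm
  · have h := y.2
    rw [ConjAct.mem_orbit_conjAct] at h
    obtain ⟨g, hg⟩ := isConj_iff.1 h.symm
    rw [← hg]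
    exact ‹V.Normal›.conj_mem _ v.2 g
  · have h := y.2
    rw [ConjAct.mem_orbit_conjAct] at h
    exact h.symm
  · intro x
    rfl
  · intro y
    rfl

lemma index_kst (hV : ∀ a ∈ V, ∀ b ∈ V, a * b = b * a) (v : V) :
    (Kst V (v : G)).index = (Subgroup.centralizer {(v : G)}).index := by
  rw [← Subgroup.index_comap_of_surjective (Kst V (v : G)) (QuotientGroup.mk'_surjective V)]
  congr 1
  unfold Kst
  rw [Subgroup.comap_map_eq, QuotientGroup.ker_mk', sup_eq_left]
  intro a ha
  exact mem_cent.2 (hV _ v.2 _ ha)

end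

/-- **ORB** -/
theorem orb : OrbStmt.{u} := by
  intro G _ _ V _ hV
  have h1 : ∀ v : V, Nat.card {v' : V // IsConj (v : G) (v' : G)} * Nat.card (Kst V (v : G)) =
      Nat.card (G ⧸ V) := by
    intro v
    rw [card_class, ← index_kst hV, mul_comm]
    exact Subgroup.card_mul_index _
  refine ⟨h1, ?_⟩
  intro hsum
  classical
  letI : Fintype V := Fintype.ofFinite V
  let s : Setoid V :=
    { r := fun v v' => IsConj (v : G) (v' : G)
      iseqv := ⟨fun v => IsConj.refl _, fun h => h.symm, fun h h' => h.trans h'⟩ }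
  let rep : V → V := fun v => (Quotient.mk s v).out
  have hrep : ∀ v : V, IsConj ((rep v : V) : G) (v : G) := fun v => Quotient.mk_out (s := s) v
  have hrep2 : ∀ v v' : V, IsConj (v : G) (v' : G) → rep v = rep v' := by
    intro v v' h
    change (Quotient.mk s v).out = (Quotient.mk s v').out
    have h3 : Quotient.mk s v = Quotient.mk s v' := Quotient.sound h
    rw [h3]
  have hrr : ∀ v : V, rep (rep v) = rep v := fun v => hrep2 _ _ (hrep v)
  let T : Finset V := Finset.univ.image rep
  have hT : ∀ t ∈ T, rep t = t := by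
    intro t ht
    obtain ⟨v, _, rfl⟩ := Finset.mem_image.1 ht
    exact hrr v
  refine ⟨T, ?_, ?_, ?_⟩
  · intro v
    exact ⟨rep v, Finset.mem_image_of_mem _ (Finset.mem_univ v), hrep v⟩
  · intro t ht t' ht' h
    rw [← hT t ht, ← hT t' ht']
    exact hrep2 _ _ h
  · rw [finsum_eq_sum_of_fintype] at hsum
    have h2 : ∑ v : V, Nat.card (Kst V (v : G)) * k (Kst V (v : G)) =
        ∑ t ∈ T, Nat.card (G ⧸ V) * k (Kst V (t : G)) := by
      rw [← Finset.sum_fiberwise_of_maps_to (s := Finset.univ) (t := T) (g := rep)
        (fun v _ => Finset.mem_image_of_mem _ (Finset.mem_univ v))]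
      refine Finset.sum_congr rfl ?_
      intro t ht
      have h3 : Finset.univ.filter (fun v : V => rep v = t) =
          Finset.univ.filter (fun v : V => IsConj (t : G) (v : G)) := by
        ext v
        simp only [Finset.mem_filter, Finset.mem_univ, true_and]
        constructor
        · rintro rfl
          exact hrep v
        · intro h
          rw [← hrep2 t v h, hT t ht]
      rw [h3]
      have h4 : ∀ v ∈ Finset.univ.filter (fun v : V => IsConj (t : G) (v : G)),
          Nat.card (Kst V (v : G)) * k (Kst V (v : G)) =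
            Nat.card (Kst V (t : G)) * k (Kst V (t : G)) := by
        intro v hv
        simp only [Finset.mem_filter, Finset.mem_univ, true_and] at hv
        obtain ⟨e⟩ := kst_conj (V := V) hv
        rw [Nat.card_congr e.toEquiv, k_congr e]
      rw [Finset.sum_congr rfl h4, Finset.sum_const, smul_eq_mul, ← h1 t]
      have h5 : Nat.card {v' : V // IsConj (t : G) (v' : G)} =
          (Finset.univ.filter (fun v : V => IsConj (t : G) (v : G))).card := by
        rw [Nat.card_eq_fintype_card, Fintype.card_subtype]
      rw [h5]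
      ring
    rw [h2, ← Finset.mul_sum] at hsum
    exact (Nat.eq_of_mul_eq_mul_left Nat.card_pos hsum).symm

end Pool.Agent.Helper59.AG
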